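import Pool.Agent.helper82.OG.Spec
import Pool.Agent.helper47.RA.Num

set_option autoImplicit false

open Finset

noncomputable section

namespace Pool.Agent.OG

open Pool.Agent.EP

lemma CTR_s5 : (2.236 : ℝ) < √5 ∧ √5 < 2.2361 := by
  constructor
  · rw [Real.lt_sqrt (by norm_num)]; norm_num
  · rw [Real.sqrt_lt' (by norm_num)]; norm_num

lemma CTR_i5 : (0.4472 : ℝ) < 1 / √5 ∧ 1 / √5 < 0.4473 := by
  obtain ⟨h1, h2⟩ := CTR_s5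
  have h0 : (0 : ℝ) < √5 := by linarith
  constructor
  · rw [lt_div_iff₀ h0]; nlinarith
  · rw [div_lt_iff₀ h0]; nlinarith

lemma CTR_KB (K Y A B β : ℝ) (hK : 1 ≤ K) (hKY : K ≤ Y) (hA : 1 ≤ A) (hB : B ≤ Y ^ (1 / 4 : ℝ))
    (hβ : 3 / 4 ≤ β) : K * A * B ≤ (K * A ^ 2 * Y) ^ β := by
  have hY : 1 ≤ Y := le_trans hK hKY
  have hA0 : 0 < A := by linarith
  have hK0 : 0 < K := by linarith
  have hY0 : 0 < Y := by linarith
  have hA2 : 1 ≤ A ^ 2 := one_le_pow₀ hA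
  have hKA : 1 ≤ K * A ^ 2 := one_le_mul_of_one_le_of_one_le hK hA2
  have hZ1 : 1 ≤ K * A ^ 2 * Y := one_le_mul_of_one_le_of_one_le hKA hY
  have h1 : K * A * Y ^ (1 / 4 : ℝ) ≤ (K * A ^ 2 * Y) ^ (3 / 4 : ℝ) := by
    have h2 : (K * A * Y ^ (1 / 4 : ℝ)) ^ 4 ≤ ((K * A ^ 2 * Y) ^ (3 / 4 : ℝ)) ^ 4 := by
      have e1 : (Y ^ (1 / 4 : ℝ)) ^ 4 = Y := by
        rw [← Real.rpow_natCast, ← Real.rpow_mul hY0.le]
        norm_num
      have e2 : ((K * A ^ 2 * Y) ^ (3 / 4 : ℝ)) ^ 4 = (K * A ^ 2 * Y) ^ 3 := by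
        rw [← Real.rpow_natCast, ← Real.rpow_mul (by positivity)]
        norm_num
      rw [mul_pow, mul_pow, e1, e2]
      have e3 : K ≤ A ^ 2 * Y ^ 2 := by
        have : Y ≤ Y ^ 2 := by nlinarith
        nlinarith
      calc K ^ 4 * A ^ 4 * Y = K * (K ^ 3 * A ^ 4 * Y) := by ring
        _ ≤ (A ^ 2 * Y ^ 2) * (K ^ 3 * A ^ 4 * Y) := mul_le_mul_of_nonneg_right e3 (by positivity)
        _ = (K * A ^ 2 * Y) ^ 3 := by ring
    exact le_of_pow_le_pow_left₀ (by norm_num) (by positivity) h2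
  calc K * A * B ≤ K * A * Y ^ (1 / 4 : ℝ) := mul_le_mul_of_nonneg_left hB (by positivity)
    _ ≤ (K * A ^ 2 * Y) ^ (3 / 4 : ℝ) := h1
    _ ≤ (K * A ^ 2 * Y) ^ β := Real.rpow_le_rpow_of_exponent_le hZ1 hβ

/-- the first inequality, `E = Y^δ`. -/
lemma CTR_I1 (K Y τ D R B β E : ℝ) (hK : 1 ≤ K) (hKY : K ≤ Y) (hτ : 0 ≤ τ) (hE : 5 ≤ E)
    (hB : B ≤ Y ^ (1 / 4 : ℝ)) (hβ : 3 / 4 ≤ β) (hD : D ≤ E) (hD0 : 0 ≤ D)
    (hR : K / E ≤ R) (h : R * τ ≤ D * (4 * (K * Y) ^ β + K * B)) :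
    K * τ ≤ E ^ 3 * (K * Y) ^ β := by
  have hY0 : 0 < Y := by linarith
  have hK0 : 0 < K := by linarith
  have hE0 : 0 < E := by linarith
  have h1 := CTR_KB K Y 1 B β hK hKY le_rfl hB hβ
  rw [one_pow, mul_one] at h1
  have hP : 0 ≤ (K * Y) ^ β := by positivity
  have h2 : R * τ ≤ E * (5 * (K * Y) ^ β) := by
    refine le_trans h ?_
    calc D * (4 * (K * Y) ^ β + K * B) ≤ D * (5 * (K * Y) ^ β) :=
          mul_le_mul_of_nonneg_left (by linarith) hD0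
      _ ≤ E * (5 * (K * Y) ^ β) := mul_le_mul_of_nonneg_right hD (by positivity)
  have h3 : K / E * τ ≤ E * (5 * (K * Y) ^ β) := le_trans (mul_le_mul_of_nonneg_right hR hτ) h2
  have h4 : K * τ = E * (K / E * τ) := by field_simp
  rw [h4]
  calc E * (K / E * τ) ≤ E * (E * (5 * (K * Y) ^ β)) := mul_le_mul_of_nonneg_left h3 hE0.le
    _ = 5 * (E ^ 2 * (K * Y) ^ β) := by ring
    _ ≤ E * (E ^ 2 * (K * Y) ^ β) := mul_le_mul_of_nonneg_right hE (by positivity)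
    _ = E ^ 3 * (K * Y) ^ β := by ring

lemma CTR_tau (K Y τ β δ : ℝ) (hY : 1 ≤ Y) (hδ0 : 0 < δ) (hδ : δ ≤ 1 / 1000) (hβ : 3 / 4 ≤ β)
    (hβ1 : β ≤ 0.8091) (hK : Y ^ (1 / √5 - δ) ≤ K)
    (h : K * τ ≤ Y ^ (3 * δ) * (K * Y) ^ β) : τ ≤ Y ^ (0.73 : ℝ) := by
  obtain ⟨h51, h52⟩ := CTR_i5
  have hY0 : 0 < Y := by linarith
  have hK0 : 0 < K := lt_of_lt_of_le (by positivity) hK
  have h1 : τ ≤ Y ^ (3 * δ + β) * K ^ (β - 1) := by
    have e1 : K ^ (β - 1) = K ^ β / K := by rw [Real.rpow_sub hK0, Real.rpow_one]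
    have e2 : Y ^ (3 * δ + β) * K ^ (β - 1) = (Y ^ (3 * δ) * (K * Y) ^ β) / K := by
      rw [e1, Real.rpow_add hY0, Real.mul_rpow hK0.le hY0.le]
      field_simp
    rw [e2, le_div_iff₀ hK0]
    linarith
  have h2 : K ^ (β - 1) ≤ (Y ^ (1 / √5 - δ)) ^ (β - 1) :=
    Real.rpow_le_rpow_of_nonpos (by positivity) hK (by linarith)
  have h3 : Y ^ (3 * δ + β) * K ^ (β - 1) ≤ Y ^ (3 * δ + β + (1 / √5 - δ) * (β - 1)) := by
    rw [Real.rpow_add hY0 (3 * δ + β), Real.rpow_mul hY0.le]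
    exact mul_le_mul_of_nonneg_left h2 (by positivity)
  refine le_trans h1 (le_trans h3 (Real.rpow_le_rpow_of_exponent_le hY ?_))
  nlinarith

lemma CTR_find (W Y : ℕ) (hY : 1 ≤ Y) : ∃ a : ℕ, 2 ≤ a ∧ W ^ 2 ≤ 2 ^ a * Y ∧
    (2 ^ a * Y ≤ 4 * Y ∨ 2 ^ a * Y ≤ 2 * W ^ 2) := by
  have hex : ∃ a : ℕ, 2 ≤ a ∧ W ^ 2 ≤ 2 ^ a * Y := by
    refine ⟨W ^ 2 + 2, by omega, ?_⟩
    have h1 : W ^ 2 < 2 ^ (W ^ 2) := Nat.lt_two_pow_self
    have h2 : 2 ^ (W ^ 2) ≤ 2 ^ (W ^ 2 + 2) := Nat.pow_le_pow_right (by norm_num) (by omega)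
    calc W ^ 2 ≤ 2 ^ (W ^ 2 + 2) * 1 := by omega
      _ ≤ 2 ^ (W ^ 2 + 2) * Y := Nat.mul_le_mul_left _ hY
  classical
  obtain ⟨h1, h2⟩ := Nat.find_spec hex
  refine ⟨Nat.find hex, h1, h2, ?_⟩
  by_cases h3 : Nat.find hex = 2
  · left
    rw [h3]
    norm_num
  · right
    have h4 : ¬ (2 ≤ Nat.find hex - 1 ∧ W ^ 2 ≤ 2 ^ (Nat.find hex - 1) * Y) :=
      Nat.find_min hex (by omega)
    have h5 : 2 ^ (Nat.find hex - 1) * Y < W ^ 2 := by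
      by_contra hcon
      exact h4 ⟨by omega, by omega⟩
    have h6 : 2 ^ (Nat.find hex) = 2 * 2 ^ (Nat.find hex - 1) := by
      rw [← pow_succ']
      congr 1
      omega
    rw [h6, mul_assoc]
    omega

/-- the size of `A`. -/
lemma CTR_AY (Y τ D Bc W A E : ℝ) (hY : 1 ≤ Y) (hτ : 1 ≤ τ) (hBc : 1 ≤ Bc) (hD1 : 1 ≤ D) (hE : 2048 ≤ E)
    (hD : D ≤ E) (hB : Bc ≤ E) (hW : W = 16 * D * (Bc * τ + 1))
    (hA : A * Y ≤ 4 * Y ∨ A * Y ≤ 2 * W ^ 2) (hWA : W ^ 2 ≤ A * Y) :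
    τ ^ 2 ≤ A * Y ∧ A * Y ≤ E ^ 5 * max Y (τ ^ 2) := by
  have hBt : 1 ≤ Bc * τ := one_le_mul_of_one_le_of_one_le hBc hτ
  have hτB : τ ≤ Bc * τ := by nlinarith
  have hτW : τ ≤ W := by
    rw [hW]
    nlinarith
  have hW0 : 0 ≤ W := by linarith
  have hW2 : W ≤ 32 * (D * Bc * τ) := by
    rw [hW]
    nlinarith
  have hE1 : 1 ≤ E := by linarith
  constructor
  · exact le_trans (pow_le_pow_left₀ (by linarith) hτW 2) hWA
  · rcases hA with h | h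
    · have h1 : (4 : ℝ) ≤ E ^ 5 := by
        calc (4 : ℝ) ≤ E := by linarith
          _ = E ^ 1 := (pow_one E).symm
          _ ≤ E ^ 5 := pow_le_pow_right₀ hE1 (by norm_num)
      calc A * Y ≤ 4 * Y := h
        _ ≤ E ^ 5 * Y := mul_le_mul_of_nonneg_right h1 (by linarith)
        _ ≤ E ^ 5 * max Y (τ ^ 2) := mul_le_mul_of_nonneg_left (le_max_left _ _) (by positivity)
    · have h1 : W ^ 2 ≤ (32 * (D * Bc * τ)) ^ 2 := pow_le_pow_left₀ hW0 hW2 2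
      have h2 : D ^ 2 ≤ E ^ 2 := pow_le_pow_left₀ (by linarith) hD 2
      have h3 : Bc ^ 2 ≤ E ^ 2 := pow_le_pow_left₀ (by linarith) hB 2
      calc A * Y ≤ 2 * W ^ 2 := h
        _ ≤ 2 * (32 * (D * Bc * τ)) ^ 2 := by linarith
        _ = 2048 * (D ^ 2 * Bc ^ 2) * τ ^ 2 := by ring
        _ ≤ E * (E ^ 2 * E ^ 2) * τ ^ 2 := by
            refine mul_le_mul_of_nonneg_right ?_ (by positivity)
            exact mul_le_mul hE (mul_le_mul h2 h3 (by positivity) (by positivity)) (by positivity)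
              (by linarith)
        _ = E ^ 5 * τ ^ 2 := by ring
        _ ≤ E ^ 5 * max Y (τ ^ 2) := mul_le_mul_of_nonneg_left (le_max_right _ _) (by positivity)

/-- the second inequality. -/
lemma CTR_I2 (K Y τ D R B β E A P : ℝ) (hK : 1 ≤ K) (hKY : K ≤ Y) (hτ : 0 ≤ τ) (hE : 544 ≤ E)
    (hA : 1 ≤ A) (hB : B ≤ Y ^ (1 / 4 : ℝ)) (hβ : 3 / 4 ≤ β) (hβ1 : β ≤ 1) (hD : D ≤ E) (hD0 : 0 ≤ D)
    (hR : K / E ≤ R) (hP : P ≤ D * (4 * (K * A * (4 * A * Y)) ^ β + K * A * B))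
    (h : R * τ * (Real.sqrt (A * Y) / 8) ≤ 2 * (2 * Real.sqrt (K / A) + 1) * P) :
    K * τ * Real.sqrt (A * Y) ≤ E ^ 3 * ((Real.sqrt (K / A) + 1) * (K * A ^ 2 * Y) ^ β) := by
  have hY0 : 0 < Y := by linarith
  have hK0 : 0 < K := by linarith
  have hE0 : 0 < E := by linarith
  have hA0 : 0 < A := by linarith
  obtain ⟨S, hS⟩ : ∃ S, S = (K * A ^ 2 * Y) ^ β := ⟨_, rfl⟩
  have hS0 : 0 < S := by rw [hS]; positivity
  have h1 : K * A * B ≤ S := by rw [hS]; exact CTR_KB K Y A B β hK hKY hA hB hβ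
  have h2 : (K * A * (4 * A * Y)) ^ β ≤ 4 * S := by
    have e1 : K * A * (4 * A * Y) = 4 * (K * A ^ 2 * Y) := by ring
    rw [e1, Real.mul_rpow (by norm_num) (by positivity), ← hS]
    have e2 : (4 : ℝ) ^ β ≤ 4 ^ (1 : ℝ) := Real.rpow_le_rpow_of_exponent_le (by norm_num) hβ1
    rw [Real.rpow_one] at e2
    exact mul_le_mul_of_nonneg_right e2 hS0.le
  have h3 : P ≤ D * (17 * S) := by
    refine le_trans hP (mul_le_mul_of_nonneg_left ?_ hD0)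
    linarith
  have h4 : P ≤ E * (17 * S) := le_trans h3 (mul_le_mul_of_nonneg_right hD (by positivity))
  obtain ⟨s, hs⟩ : ∃ s, s = Real.sqrt (K / A) := ⟨_, rfl⟩
  have hs0 : 0 ≤ s := by rw [hs]; positivity
  obtain ⟨q, hq⟩ : ∃ q, q = Real.sqrt (A * Y) := ⟨_, rfl⟩
  have hq0 : 0 ≤ q := by rw [hq]; positivity
  rw [← hs, ← hq] at h
  rw [← hs, ← hq, ← hS]
  have h5 : K / E * τ * (q / 8) ≤ 2 * (2 * s + 1) * (E * (17 * S)) := by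
    calc K / E * τ * (q / 8) ≤ R * τ * (q / 8) := by
          refine mul_le_mul_of_nonneg_right (mul_le_mul_of_nonneg_right hR hτ) (by positivity)
      _ ≤ 2 * (2 * s + 1) * P := h
      _ ≤ 2 * (2 * s + 1) * (E * (17 * S)) := mul_le_mul_of_nonneg_left h4 (by positivity)
  have h6 : K * τ * q = 8 * E * (K / E * τ * (q / 8)) := by field_simp
  rw [h6]
  calc 8 * E * (K / E * τ * (q / 8)) ≤ 8 * E * (2 * (2 * s + 1) * (E * (17 * S))) :=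
        mul_le_mul_of_nonneg_left h5 (by positivity)
    _ = 272 * (2 * s + 1) * (E ^ 2 * S) := by ring
    _ ≤ 544 * (s + 1) * (E ^ 2 * S) := by
        refine mul_le_mul_of_nonneg_right ?_ (by positivity)
        linarith
    _ = 544 * (E ^ 2 * ((s + 1) * S)) := by ring
    _ ≤ E * (E ^ 2 * ((s + 1) * S)) := mul_le_mul_of_nonneg_right hE (by positivity)
    _ = E ^ 3 * ((s + 1) * S) := by ring

lemma CTR_V (V D T : ℕ) (h : 16 * D * (T + 1) ≤ V) (hV : 16 ≤ V) :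
    (V : ℝ) / 4 ≤ ((V / 2 - D * (T + 1) : ℕ) : ℝ) := by
  have h1 : D * (T + 1) ≤ V / 16 := by
    rw [Nat.le_div_iff_mul_le (by norm_num)]
    calc D * (T + 1) * 16 = 16 * D * (T + 1) := by ring
      _ ≤ V := h
  have h2 : V ≤ 4 * (V / 2 - D * (T + 1)) := by omega
  have h3 : (V : ℝ) ≤ 4 * ((V / 2 - D * (T + 1) : ℕ) : ℝ) := by exact_mod_cast h2
  linarith

lemma CTR_sqrt (N : ℕ) (hN : 4 ≤ N) : Real.sqrt N / 2 ≤ (Nat.sqrt N : ℝ) := by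
  have h1 : Real.sqrt N ≤ (Nat.sqrt N : ℝ) + 1 := by
    rw [Real.sqrt_le_left (by positivity)]
    have h2 : N < (Nat.sqrt N + 1) ^ 2 := Nat.lt_succ_sqrt' N
    have h3 : (N : ℝ) < ((Nat.sqrt N : ℝ) + 1) ^ 2 := by exact_mod_cast h2
    exact h3.le
  have h4 : 2 ≤ Nat.sqrt N := by
    rw [Nat.le_sqrt']
    omega
  have h5 : (2 : ℝ) ≤ (Nat.sqrt N : ℝ) := by exact_mod_cast h4
  linarith

lemma CTR_div (K a : ℕ) (ha : 2 ≤ a) :
    ((Nat.sqrt (K * 2 ^ a) / 2 ^ (a - 1) : ℕ) : ℝ) ≤ 2 * Real.sqrt ((K : ℝ) / (2 ^ a : ℝ)) := by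
  have h1 : ((Nat.sqrt (K * 2 ^ a) / 2 ^ (a - 1) : ℕ) : ℝ) ≤
      ((Nat.sqrt (K * 2 ^ a) : ℕ) : ℝ) / ((2 ^ (a - 1) : ℕ) : ℝ) := Nat.cast_div_le
  have h2 : ((Nat.sqrt (K * 2 ^ a) : ℕ) : ℝ) ≤ Real.sqrt ((K : ℝ) * 2 ^ a) := by
    have h := Real.nat_sqrt_le_real_sqrt (a := K * 2 ^ a)
    push_cast at h
    exact h
  have h3 : (2 : ℝ) ^ a = 2 * 2 ^ (a - 1) := by
    rw [← pow_succ']
    congr 1
    omega
  have hp : (0 : ℝ) < 2 ^ (a - 1) := by positivity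
  have hq : (0 : ℝ) < 2 ^ a := by positivity
  have h4 : Real.sqrt ((K : ℝ) * 2 ^ a) = 2 ^ a * Real.sqrt ((K : ℝ) / 2 ^ a) := by
    have e1 : (K : ℝ) * 2 ^ a = (2 ^ a) ^ 2 * ((K : ℝ) / 2 ^ a) := by field_simp
    rw [e1, Real.sqrt_mul (by positivity), Real.sqrt_sq hq.le]
  refine le_trans h1 ?_
  push_cast
  rw [div_le_iff₀ hp]
  calc ((Nat.sqrt (K * 2 ^ a) : ℕ) : ℝ) ≤ Real.sqrt ((K : ℝ) * 2 ^ a) := h2
    _ = 2 ^ a * Real.sqrt ((K : ℝ) / 2 ^ a) := h4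
    _ = 2 * Real.sqrt ((K : ℝ) / 2 ^ a) * 2 ^ (a - 1) := by
        nth_rewrite 1 [h3]
        ring

/-- sizes in powers of `X`. -/
lemma CTR_size (X Y K A E τ δ : ℝ) (hX : 1 ≤ X) (hY : 1 ≤ Y) (hδ0 : 0 < δ) (hδ : δ ≤ 1 / 1000)
    (hE : E = Y ^ δ) (hE4 : 4 ≤ E) (hYX : Y ≤ X ^ (2 / 5 + δ)) (hK0 : 0 < K) (hK : K ≤ Y ^ (1 / √5 + δ))
    (hτ0 : 0 ≤ τ) (hτ : τ ≤ Y ^ (0.73 : ℝ)) (hA0 : 0 < A) (hA : A * Y ≤ E ^ 5 * max Y (τ ^ 2)) :
    4 * (K * A ^ 2 * Y) ≤ X := by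
  obtain ⟨h51, h52⟩ := CTR_i5
  have hY0 : 0 < Y := by linarith
  have hX0 : 0 < X := by linarith
  have hYX' : Y ≤ X ^ (0.401 : ℝ) := le_trans hYX
    (Real.rpow_le_rpow_of_exponent_le hX (by norm_num at hδ ⊢; linarith))
  have hK' : K ≤ Y ^ (0.4483 : ℝ) := le_trans hK
    (Real.rpow_le_rpow_of_exponent_le hY (by norm_num at hδ h52 ⊢; linarith))
  have hE' : E ≤ Y ^ (0.001 : ℝ) := by
    rw [hE]
    exact Real.rpow_le_rpow_of_exponent_le hY (by norm_num at hδ ⊢; linarith)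
  have hE5 : E ^ 5 ≤ Y ^ (0.005 : ℝ) := by
    calc E ^ 5 ≤ (Y ^ (0.001 : ℝ)) ^ 5 := pow_le_pow_left₀ (by linarith) hE' 5
      _ = Y ^ (0.005 : ℝ) := by
          rw [← Real.rpow_natCast, ← Real.rpow_mul hY0.le]
          norm_num
  have hmax : max Y (τ ^ 2) ≤ Y ^ (1.46 : ℝ) := by
    refine max_le ?_ ?_
    · calc Y = Y ^ (1 : ℝ) := (Real.rpow_one Y).symm
        _ ≤ Y ^ (1.46 : ℝ) := Real.rpow_le_rpow_of_exponent_le hY (by norm_num)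
    · calc τ ^ 2 ≤ (Y ^ (0.73 : ℝ)) ^ 2 := pow_le_pow_left₀ hτ0 hτ 2
        _ = Y ^ (1.46 : ℝ) := by
            rw [← Real.rpow_natCast, ← Real.rpow_mul hY0.le]
            norm_num
  have hA' : A ≤ Y ^ (0.465 : ℝ) := by
    have h1 : A * Y ≤ Y ^ (1.465 : ℝ) := by
      calc A * Y ≤ E ^ 5 * max Y (τ ^ 2) := hA
        _ ≤ Y ^ (0.005 : ℝ) * Y ^ (1.46 : ℝ) :=
            mul_le_mul hE5 hmax (le_trans hY0.le (le_max_left _ _)) (by positivity)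
        _ = Y ^ (1.465 : ℝ) := by rw [← Real.rpow_add hY0]; norm_num
    have h2 : Y ^ (1.465 : ℝ) = Y ^ (0.465 : ℝ) * Y := by
      nth_rewrite 3 [← Real.rpow_one Y]
      rw [← Real.rpow_add hY0]
      norm_num
    rw [h2] at h1
    exact le_of_mul_le_mul_right h1 hY0
  have hA2 : A ^ 2 ≤ Y ^ (0.93 : ℝ) := by
    calc A ^ 2 ≤ (Y ^ (0.465 : ℝ)) ^ 2 := pow_le_pow_left₀ hA0.le hA' 2
      _ = Y ^ (0.93 : ℝ) := by
          rw [← Real.rpow_natCast, ← Real.rpow_mul hY0.le]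
          norm_num
  have h1 : 4 * (K * A ^ 2 * Y) ≤ Y ^ (2.3793 : ℝ) := by
    calc 4 * (K * A ^ 2 * Y) ≤ E * (K * A ^ 2 * Y) := mul_le_mul_of_nonneg_right hE4 (by positivity)
      _ ≤ Y ^ (0.001 : ℝ) * (Y ^ (0.4483 : ℝ) * Y ^ (0.93 : ℝ) * Y) := by
          refine mul_le_mul hE' ?_ (by positivity) (by positivity)
          refine mul_le_mul_of_nonneg_right ?_ hY0.le
          exact mul_le_mul hK' hA2 (by positivity) (by positivity)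
      _ = Y ^ (0.001 : ℝ) * (Y ^ (0.4483 : ℝ) * Y ^ (0.93 : ℝ) * Y ^ (1 : ℝ)) := by
          rw [Real.rpow_one]
      _ = Y ^ (2.3793 : ℝ) := by
          rw [← Real.rpow_add hY0, ← Real.rpow_add hY0, ← Real.rpow_add hY0]
          norm_num
  refine le_trans h1 ?_
  calc Y ^ (2.3793 : ℝ) ≤ (X ^ (0.401 : ℝ)) ^ (2.3793 : ℝ) :=
        Real.rpow_le_rpow hY0.le hYX' (by norm_num)
    _ = X ^ (0.401 * 2.3793 : ℝ) := by rw [← Real.rpow_mul hX0.le]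
    _ ≤ X ^ (1 : ℝ) := Real.rpow_le_rpow_of_exponent_le hX (by norm_num)
    _ = X := Real.rpow_one X

theorem CTR (hSET : SET_stmt) (hSEC : SEC_stmt) (hFST : FST_stmt) (hPRB : PRB_stmt)
    (hGAM : GAM_stmt) : CTR_stmt := by
  intro ε hε hε1
  obtain ⟨h51, h52⟩ := CTR_i5
  obtain ⟨hs1, hs2⟩ := CTR_s5
  obtain ⟨δ₀, Y₀, hδ₀, hG⟩ := hGAM ε hε hε1
  obtain ⟨δ, hδdef⟩ : ∃ δ, δ = min (δ₀ / 40) (1 / 1000) := ⟨_, rfl⟩
  have hδ0 : 0 < δ := by rw [hδdef]; exact lt_min (by positivity) (by norm_num)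
  have hδ1 : δ ≤ 1 / 1000 := by rw [hδdef]; exact min_le_right _ _
  have hδδ : 5 * δ ≤ δ₀ := by
    have : δ ≤ δ₀ / 40 := by rw [hδdef]; exact min_le_left _ _
    linarith
  obtain ⟨X₁, hX₁⟩ := hSET ε δ hε hε1 hδ0
  obtain ⟨C, hC1, hC⟩ := Pool.Agent.helper47.RA.card_divisors_le (δ / 4) (by positivity)
  obtain ⟨Ym, hYm⟩ : ∃ Ym : ℝ, ∀ y : ℝ, Ym ≤ y → Y₀ ≤ y ∧ 2 ≤ y ∧ 2048 ≤ y ^ δ ∧
      C ≤ y ^ (3 * δ / 8) := by
    have e1 := (tendsto_rpow_atTop hδ0).eventually_ge_atTop 2048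
    have e2 := (tendsto_rpow_atTop (show 0 < 3 * δ / 8 by positivity)).eventually_ge_atTop C
    have e3 := (Filter.eventually_ge_atTop Y₀).and (Filter.eventually_ge_atTop (2 : ℝ))
    obtain ⟨Ym, h⟩ := Filter.eventually_atTop.1 (e1.and (e2.and e3))
    exact ⟨Ym, fun y hy => ⟨(h y hy).2.2.1, (h y hy).2.2.2, (h y hy).1, (h y hy).2.1⟩⟩
  obtain ⟨X₂, hX₂⟩ : ∃ X₂ : ℝ, ∀ x : ℝ, X₂ ≤ x → Ym ≤ x ^ (2 / 5 : ℝ) :=
    Filter.eventually_atTop.1 ((tendsto_rpow_atTop (show (0 : ℝ) < 2 / 5 by norm_num)).eventually_ge_atTop Ym)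
  refine ⟨max X₁ (max 1 ⌈X₂⌉₊), fun X hX hFew => ?_⟩
  have hXX₁ : X₁ ≤ X := le_trans (le_max_left _ _) hX
  have hX1 : 1 ≤ X := le_trans (le_trans (le_max_left _ _) (le_max_right _ _)) hX
  have hXX₂ : X₂ ≤ (X : ℝ) := by
    refine le_trans (Nat.le_ceil X₂) ?_
    exact_mod_cast le_trans (le_trans (le_max_right _ _) (le_max_right _ _)) hX
  have hX1r : (1 : ℝ) ≤ X := by exact_mod_cast hX1
  have hX0r : (0 : ℝ) < X := by linarith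
  obtain ⟨Y, K, τ, Bc, R, hY1, hY2, hK1, hK2, hBc, hBc1, hτ, hR, hRc⟩ := hX₁ X hXX₁ hFew
  obtain ⟨hYY₀, hYtwo, hE, hCY⟩ := hYm Y (le_trans (hX₂ X hXX₂) hY1)
  obtain ⟨E, hEdef⟩ : ∃ E, E = (Y : ℝ) ^ δ := ⟨_, rfl⟩
  rw [← hEdef] at hE hBc
  obtain ⟨β, hβdef⟩ : ∃ β, β = (1 + √5) / 4 - ε := ⟨_, rfl⟩
  rw [← hβdef] at hFew
  obtain ⟨B, hBdef⟩ : ∃ B, B = (X : ℝ) ^ (1 / 10 : ℝ) := ⟨_, rfl⟩
  rw [← hBdef] at hFew
  have hβ34 : 3 / 4 ≤ β := by rw [hβdef]; linarith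
  have hβ8 : β ≤ 0.8091 := by rw [hβdef]; norm_num at hs2 ⊢; linarith
  have hβ1 : β ≤ 1 := by norm_num at hβ8; linarith
  have hY0 : (0 : ℝ) < Y := by linarith
  have hYone : (1 : ℝ) ≤ Y := by linarith
  have hE0 : 0 < E := by linarith
  have hB0 : 0 ≤ B := by rw [hBdef]; positivity
  have hBY : B ≤ (Y : ℝ) ^ (1 / 4 : ℝ) := by
    have e1 : (X : ℝ) ^ (1 / 10 : ℝ) = ((X : ℝ) ^ (2 / 5 : ℝ)) ^ (1 / 4 : ℝ) := by
      rw [← Real.rpow_mul hX0r.le]; norm_num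
    rw [hBdef, e1]
    exact Real.rpow_le_rpow (by positivity) hY1 (by norm_num)
  -- divisors
  obtain ⟨D, hDdef⟩ : ∃ D : ℕ, D = ⌊C * (X : ℝ) ^ (δ / 4)⌋₊ := ⟨_, rfl⟩
  have hDX : DvB D X := by
    intro k hk hkX
    rw [hDdef]
    refine Nat.le_floor ?_
    refine le_trans (hC k hk) (mul_le_mul_of_nonneg_left ?_ (by linarith))
    exact Real.rpow_le_rpow (by positivity) (by exact_mod_cast hkX) (by positivity)
  have hDvB : ∀ N : ℕ, N ≤ X → DvB D N := fun N hN k hk hkN => hDX k hk (le_trans hkN hN)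
  have hD1 : 1 ≤ D := by
    have h := hDX 1 one_pos hX1
    rwa [Nat.divisors_one, Finset.card_singleton] at h
  have hDE : (D : ℝ) ≤ E := by
    have hXY : (X : ℝ) ≤ (Y : ℝ) ^ (5 / 2 : ℝ) := by
      have e1 : (X : ℝ) = ((X : ℝ) ^ (2 / 5 : ℝ)) ^ (5 / 2 : ℝ) := by
        rw [← Real.rpow_mul hX0r.le]; norm_num
      rw [e1]
      exact Real.rpow_le_rpow (by positivity) hY1 (by norm_num)
    calc (D : ℝ) ≤ C * (X : ℝ) ^ (δ / 4) := by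
          rw [hDdef]; exact Nat.floor_le (by positivity)
      _ ≤ (Y : ℝ) ^ (3 * δ / 8) * ((Y : ℝ) ^ (5 / 2 : ℝ)) ^ (δ / 4) :=
          mul_le_mul hCY (Real.rpow_le_rpow hX0r.le hXY (by positivity)) (by positivity)
            (by positivity)
      _ = (Y : ℝ) ^ (3 * δ / 8 + 5 / 2 * (δ / 4)) := by
          rw [← Real.rpow_mul hY0.le, ← Real.rpow_add hY0]
      _ = E := by
          rw [hEdef]
          congr 1
          ring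
  -- K and τ
  have hKone : (1 : ℝ) ≤ K := by
    refine le_trans ?_ hK1
    exact Real.one_le_rpow hYone (by linarith)
  have hKY : (K : ℝ) ≤ Y := by
    refine le_trans hK2 ?_
    calc (Y : ℝ) ^ (1 / √5 + δ) ≤ (Y : ℝ) ^ (1 : ℝ) :=
          Real.rpow_le_rpow_of_exponent_le hYone (by linarith)
      _ = Y := Real.rpow_one _
  have hK0 : (0 : ℝ) < K := by linarith
  have hτone : (1 : ℝ) ≤ τ := by
    refine le_trans ?_ hτ
    exact Real.one_le_rpow hYone (by linarith)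
  have hRE : (K : ℝ) / E ≤ (#R : ℝ) := by
    refine le_trans (le_of_eq ?_) hRc
    rw [Real.rpow_neg hY0.le, ← hEdef]
    rfl
  have hBc1r : (1 : ℝ) ≤ Bc := by exact_mod_cast hBc1
  have hD1r : (1 : ℝ) ≤ D := by exact_mod_cast hD1
  have hE1 : 1 ≤ E := by linarith
  have hE5 : (1 : ℝ) ≤ E ^ 5 := one_le_pow₀ hE1
  -- first level
  have hKYX : K * Y ≤ X := by
    have h := CTR_size X Y K 1 E 0 δ hX1r hYone hδ0 hδ1 hEdef (by linarith) hY2 hK0 hK2 le_rfl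
      (by positivity) one_pos (by
        rw [one_mul]
        calc (Y : ℝ) = 1 * Y := (one_mul _).symm
          _ ≤ E ^ 5 * max (Y : ℝ) (0 ^ 2) := mul_le_mul hE5 (le_max_left _ _) hY0.le (by positivity))
    have h1 : (K : ℝ) * Y ≤ X := by nlinarith [mul_pos hK0 hY0]
    exact_mod_cast h1
  have hF := hFST K Y τ R (fun r hr => ⟨(hR r hr).1, (hR r hr).2.1, (hR r hr).2.2.2.1⟩)
  have hP1 := hPRB K Y D X β B hβ34 hβ1 hB0 hFew hKYX (hDvB _ hKYX)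
  have hFr : (#R : ℝ) * τ ≤ (#(PQ K Y) : ℝ) := by exact_mod_cast hF
  have hI1 : (K : ℝ) * τ ≤ E ^ 3 * ((K : ℝ) * Y) ^ β :=
    CTR_I1 K Y τ D #R B β E hKone hKY (by linarith) (by linarith) hBY hβ34 hDE (by linarith) hRE
      (le_trans hFr hP1)
  have hE3 : (Y : ℝ) ^ (3 * δ) = E ^ 3 := by
    rw [hEdef, ← Real.rpow_natCast, ← Real.rpow_mul hY0.le]
    congr 1
    push_cast
    ring
  have hτ73 : (τ : ℝ) ≤ (Y : ℝ) ^ (0.73 : ℝ) :=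
    CTR_tau K Y τ β δ hYone hδ0 hδ1 hβ34 hβ8 hK1 (by rw [hE3]; exact hI1)
  -- the exponent `a`
  have hY1n : 1 ≤ Y := by exact_mod_cast hYone
  obtain ⟨a, ha2, haW, hamax⟩ := CTR_find (16 * D * (Bc * τ + 1)) Y hY1n
  obtain ⟨A, hAdef⟩ : ∃ A : ℝ, A = 2 ^ a := ⟨_, rfl⟩
  have hA0 : 0 < A := by rw [hAdef]; positivity
  have hA4 : 4 ≤ A := by
    rw [hAdef]
    calc (4 : ℝ) = 2 ^ 2 := by norm_num
      _ ≤ 2 ^ a := pow_le_pow_right₀ (by norm_num) ha2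
  have hAW : ((16 * (D : ℝ) * ((Bc : ℝ) * τ + 1))) ^ 2 ≤ A * Y := by
    rw [hAdef]; exact_mod_cast haW
  have hAm : A * Y ≤ 4 * Y ∨ A * Y ≤ 2 * ((16 * (D : ℝ) * ((Bc : ℝ) * τ + 1))) ^ 2 := by
    rw [hAdef]
    rcases hamax with h | h
    · left; exact_mod_cast h
    · right; exact_mod_cast h
  obtain ⟨hτA, hAY⟩ := CTR_AY Y τ D Bc _ A E hYone hτone hBc1r hD1r hE hDE hBc rfl hAm hAW
  have hsize := CTR_size X Y K A E τ δ hX1r hYone hδ0 hδ1 hEdef (by linarith) hY2 hK0 hK2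
    (by linarith) hτ73 hA0 hAY
  have hJL : K * 2 ^ a * (4 * 2 ^ a * Y) ≤ X := by
    have h1 : (K : ℝ) * 2 ^ a * (4 * 2 ^ a * Y) ≤ X := by
      rw [← hAdef]
      calc (K : ℝ) * A * (4 * A * Y) = 4 * (K * A ^ 2 * Y) := by ring
        _ ≤ X := hsize
    exact_mod_cast h1
  have hKn : 1 ≤ K := by exact_mod_cast hKone
  have hKYn : K ≤ Y := by exact_mod_cast hKY
  have h2a : 4 ≤ 2 ^ a := by
    calc 4 = 2 ^ 2 := by norm_num
      _ ≤ 2 ^ a := Nat.pow_le_pow_right (by norm_num) ha2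
  have hDv2 : 2 ^ a * (4 * Y + K) ≤ X := by
    refine le_trans ?_ hJL
    have g1 : 4 * Y + K ≤ K * (4 * 2 ^ a * Y) := by
      have g2 : 5 * Y ≤ 4 * 2 ^ a * Y := Nat.mul_le_mul_right _ (by omega)
      calc 4 * Y + K ≤ 5 * Y := by omega
        _ ≤ 1 * (4 * 2 ^ a * Y) := by omega
        _ ≤ K * (4 * 2 ^ a * Y) := Nat.mul_le_mul_right _ hKn
    calc 2 ^ a * (4 * Y + K) ≤ 2 ^ a * (K * (4 * 2 ^ a * Y)) := Nat.mul_le_mul_left _ g1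
      _ = K * 2 ^ a * (4 * 2 ^ a * Y) := by ring
  -- second level
  obtain ⟨V, hVdef⟩ : ∃ V, V = Nat.sqrt (2 ^ a * Y) := ⟨_, rfl⟩
  have hV2 : V ^ 2 ≤ 2 ^ a * Y := by rw [hVdef]; exact Nat.sqrt_le' _
  have hWV : 16 * D * (Bc * τ + 1) ≤ V := by
    rw [hVdef, Nat.le_sqrt']
    exact haW
  have hV16 : 16 ≤ V := by
    refine le_trans ?_ hWV
    have : 1 ≤ D * (Bc * τ + 1) := Nat.mul_pos hD1 (by omega)
    calc 16 = 16 * 1 := rfl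
      _ ≤ 16 * (D * (Bc * τ + 1)) := Nat.mul_le_mul_left _ this
      _ = 16 * D * (Bc * τ + 1) := by ring
  have hS := hSEC a K Y V D τ (Bc * τ) R ha2 hV2 (hDvB _ hDv2)
    (fun r hr => ⟨(hR r hr).1, (hR r hr).2.1, (hR r hr).2.2.1, (hR r hr).2.2.2.1, (hR r hr).2.2.2.2⟩)
  have hP2 := hPRB (K * 2 ^ a) (4 * 2 ^ a * Y) D X β B hβ34 hβ1 hB0 hFew hJL (hDvB _ hJL)
  obtain ⟨P, hPdef⟩ : ∃ P : ℝ, P = (#(PQ (K * 2 ^ a) (4 * 2 ^ a * Y)) : ℝ) := ⟨_, rfl⟩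
  have hP2' : P ≤ D * (4 * ((K : ℝ) * A * (4 * A * Y)) ^ β + K * A * B) := by
    rw [hPdef, hAdef]
    push_cast at hP2
    exact hP2
  have hP0 : 0 ≤ P := by rw [hPdef]; positivity
  have hV4 := CTR_V V D (Bc * τ) hWV hV16
  have hdiv := CTR_div K a ha2
  have hsq : Real.sqrt (A * Y) / 2 ≤ V := by
    have h := CTR_sqrt (2 ^ a * Y) (by
      calc 4 = 4 * 1 := rfl
        _ ≤ 2 ^ a * Y := Nat.mul_le_mul h2a hY1n)
    rw [← hVdef] at h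
    push_cast at h
    rw [← hAdef] at h
    exact h
  have hSr : (#R : ℝ) * (τ * ((V / 2 - D * (Bc * τ + 1) : ℕ) : ℝ)) ≤
      2 * (((Nat.sqrt (K * 2 ^ a) / 2 ^ (a - 1) : ℕ) : ℝ) + 1) * P := by
    rw [hPdef]
    exact_mod_cast hS
  have hmain : (#R : ℝ) * τ * (Real.sqrt (A * Y) / 8) ≤ 2 * (2 * Real.sqrt ((K : ℝ) / A) + 1) * P := by
    calc (#R : ℝ) * τ * (Real.sqrt (A * Y) / 8) ≤ (#R : ℝ) * τ * ((V / 2 - D * (Bc * τ + 1) : ℕ) : ℝ) := by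
          refine mul_le_mul_of_nonneg_left ?_ (by positivity)
          linarith
      _ = (#R : ℝ) * (τ * ((V / 2 - D * (Bc * τ + 1) : ℕ) : ℝ)) := by ring
      _ ≤ 2 * (((Nat.sqrt (K * 2 ^ a) / 2 ^ (a - 1) : ℕ) : ℝ) + 1) * P := hSr
      _ ≤ 2 * (2 * Real.sqrt ((K : ℝ) / A) + 1) * P := by
          refine mul_le_mul_of_nonneg_right ?_ hP0
          rw [hAdef]
          linarith
  have hI2 := CTR_I2 K Y τ D #R B β E A P hKone hKY (by linarith) (by linarith) (by linarith) hBY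
    hβ34 hβ1 hDE (by linarith) hRE hP2' hmain
  -- powers
  have hE5' : E ^ 5 ≤ (Y : ℝ) ^ δ₀ := by
    rw [hEdef, ← Real.rpow_natCast, ← Real.rpow_mul hY0.le]
    refine Real.rpow_le_rpow_of_exponent_le hYone ?_
    push_cast
    linarith
  have hE3' : E ^ 3 ≤ (Y : ℝ) ^ δ₀ := le_trans (pow_le_pow_right₀ hE1 (by norm_num)) hE5'
  refine hG Y K τ A β hYY₀ (by linarith) (le_of_eq hβdef) hβ34 ?_ ?_ ?_ (by linarith) hτA ?_ ?_ ?_
  · exact le_trans (Real.rpow_le_rpow_of_exponent_le hYone (by linarith)) hK1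
  · exact le_trans hK2 (Real.rpow_le_rpow_of_exponent_le hYone (by linarith))
  · exact le_trans (Real.rpow_le_rpow_of_exponent_le hYone (by linarith)) hτ
  · exact le_trans hAY (mul_le_mul_of_nonneg_right hE5' (le_trans hY0.le (le_max_left _ _)))
  · exact le_trans hI1 (mul_le_mul_of_nonneg_right hE3' (by positivity))
  · exact le_trans hI2 (mul_le_mul_of_nonneg_right hE3' (by positivity))

end Pool.Agent.OG
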